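import Pool.Agent.Helper24.T8.Gen

/-!
A path of two edges from the start of the negative edge to its end, and a further edge on one
side of it, at one point.
-/

set_option autoImplicit false

namespace Pool.Agent.Helper42.T5

open Pool.Agent.Helper42.Th Pool.Agent.Helper31.T3 Pool.Agent.Helper31.CUT

variable {E : Type} {Γ : CMap E} {δ : E} {Ω₁ Ω₂ : Type*} [LinearOrder Ω₁] [LinearOrder Ω₂]
  {f : E → Ω₁} {g : E → Ω₂} {S : Set E} [Finite E]

/-- The path crosses the level once, at `e`; the dart `e'` is behind the path. -/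
theorem cut_out (h : Harm Γ δ f g) (L : WLevel Γ δ f S) (p : E → Prop)
    (hp : ∀ d, p (Γ.flip (Γ.rot d)) ↔ p d) (hp1 : p δ) {e e' : E}
    (hee : e' ≠ e) (he' : Cut Γ S e') (heδ' : e' ≠ δ) (hd : f (Γ.flip e') < f e')
    (hpe : ∀ d, Cut Γ S d → d ≠ δ → d ≠ e → (p d ↔ p (Γ.flip d)))
    (hq : ¬ p e') : g e ≤ g (Γ.flip e') := by
  have key : ∀ a, Walk Γ δ S δ a → p a ∨ g e ≤ g a := by
    intro a ha
    induction ha with
    | refl => exact Or.inl hp1
    | step a b hw hn hb ih =>
      rcases ih with ih | ih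
      · by_cases h4 : b = e
        · right
          rw [h4]
        · left
          apply (hpe b hn.1 hb h4).mpr
          have := hn.face p (fun d => propext (hp d))
          rw [this]
          exact ih
      · exact Or.inr (ih.trans (wstep_le h L hn hb))
  obtain ⟨a, ha, hn⟩ := wfirst h L he' heδ' hd
  rw [hn.face g h.g_rot]
  rcases key a ha with h1 | h1
  · exfalso
    have h2 := hn.face p (fun d => propext (hp d))
    have h3 : p (Γ.flip e') := by
      rw [h2]
      exact h1
    exact hq ((hpe e' he' heδ' hee).mpr h3)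
  · exact h1

/-- The path crosses the level once, at `e'`; the dart `e` is before the path. -/
theorem cut_in (h : Harm Γ δ f g) (L : WLevel Γ δ f S) (q : E → Prop)
    (hq : ∀ d, q (Γ.flip (Γ.rot d)) ↔ q d) (hq2 : ¬ q (Γ.flip δ)) {e e' : E}
    (he : Cut Γ S e) (heδ : e ≠ δ) (hd : f (Γ.flip e) < f e)
    (hqe : ∀ d, Cut Γ S d → d ≠ δ → d ≠ e' → (q d ↔ q (Γ.flip d)))
    (h3 : q e) : g e ≤ g (Γ.flip e') := by
  obtain ⟨a, ha, hn⟩ := wlast h L he heδ hd
  have h4 : ¬ q a := by
    have := hn.face q (fun d => propext (hq d))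
    rw [← this]
    exact hq2
  have key : ∀ b, Walk Γ δ S e b → ¬ q b → g e ≤ g (Γ.flip e') := by
    intro b hb
    induction hb with
    | refl => exact fun h5 => absurd h3 h5
    | step b c hw hn' hc ih =>
      intro h5
      by_cases h6 : c = e'
      · rw [← h6, hn'.face g h.g_rot]
        exact wwalk_le h L hw
      · apply ih
        have h7 := hn'.face q (fun d => propext (hq d))
        rw [← h7]
        exact fun h8 => h5 ((hqe c hn'.1 hc h6).mpr h8)
  exact key a ha h4

variable {p : ℕ → E} {A : Set E}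

/-- The level set of the points above the end of `e`, with the hub. -/
def hset (Γ : CMap E) (f : E → Ω₁) (e w : E) : Set E :=
  {d | f (Γ.flip e) < f d ∨ f d = f (Γ.flip e) ∧ Γ.rot.SameCycle w d}

section

variable (h : Harm Γ δ f g) (hx : ∀ d, f (Γ.flip δ) ≤ f d ∧ f d ≤ f δ) (P : Arc Γ δ 2 p)
  (hA : Side Γ δ 2 p A) {e : E} (he : ¬ Γ.rot.SameCycle (Γ.flip e) (p 1))
  (hd : f (Γ.flip e) < f e) (hl : f (Γ.flip e) ≤ f (p 1))
include h hx P hd

omit [Finite E] in
lemma hset_level : WLevel Γ δ f (hset Γ f e (p 1)) := by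
  have hf := h.f_rot
  refine ⟨?_, ?_, ?_, ?_⟩
  · intro d
    simp only [hset, Set.mem_ofPred_eq, hf, Equiv.Perm.sameCycle_apply_right]
  · intro d hd' e' he'
    have h3 : f e' ≤ f (Γ.flip e) := by
      by_contra hn
      exact he' (Or.inl (not_le.mp hn))
    refine h3.trans ?_
    rcases hd' with hd' | hd'
    · exact hd'.le
    · exact hd'.1.ge
  · exact Or.inl (hd.trans_le (hx e).2)
  · rintro (h3 | ⟨-, h3⟩)
    · exact absurd (hx (Γ.flip e)).1 (not_le.mpr h3)
    · exact P.end_ 1 (by norm_num) h3.symm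

include he in
omit [Finite E] hx P h in
lemma hset_cut : Cut Γ (hset Γ f e (p 1)) e := by
  refine ⟨Or.inl hd, ?_⟩
  rintro (h3 | ⟨-, h3⟩)
  · exact lt_irrefl _ h3
  · exact he h3.symm

include hA hl in
omit [Finite E] in
lemma hset_once : ∀ d, Cut Γ (hset Γ f e (p 1)) d → d ≠ δ → d ≠ p 1 →
    (d ∈ A ↔ Γ.flip d ∈ A) := by
  have L := hset_level h hx P hd
  refine once L.rot P hA L.cut (i := 1) ?_
  intro l hl'
  constructor
  · intro h1
    by_contra hn
    obtain rfl : l = 2 := by omega
    rw [vx_end] at h1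
    exact L.cut.2 h1
  · intro h1
    rcases Nat.eq_zero_or_pos l with rfl | h2
    · rw [vx_lt (by norm_num)]
      left
      rw [same_eq h.f_rot P.start]
      exact hd.trans_le (hx e).2
    · obtain rfl : l = 1 := by omega
      rw [vx_lt (by norm_num)]
      rcases hl.eq_or_lt with h3 | h3
      · exact Or.inr ⟨h3.symm, Equiv.Perm.SameCycle.refl _ _⟩
      · exact Or.inl h3

include hA hl he in
/-- The dart is before the path. -/
theorem side_in (heδ : e ≠ δ) (h1 : e ∈ A) : g e ≤ g (Γ.flip (p 1)) :=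
  cut_in h (hset_level h hx P hd) (fun d => d ∈ A) hA.face hA.not_mem (hset_cut he hd) heδ hd
    (hset_once h hx P hA hd hl) h1

include hA hl he in
/-- The dart is behind the path. -/
theorem side_out (heδ : e ≠ δ) (hep : e ≠ p 1) (h1 : e ∉ A) : g (p 1) ≤ g (Γ.flip e) :=
  cut_out h (hset_level h hx P hd) (fun d => d ∈ A) hA.face hA.mem hep (hset_cut he hd) heδ hd
    (hset_once h hx P hA hd hl) h1

end

end Pool.Agent.Helper42.T5
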