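import Mathlib

/-!
Heights and flows along a path, on a linear order.
-/

set_option autoImplicit false

namespace Pool.Agent.Helper42.T5

variable {J : Type*} [LinearOrder J]

lemma pow_le_pow' {φ ψ : J ≃o J} (h : ∀ z, φ z ≤ ψ z) (n : ℕ) (z : J) :
    (φ ^ n) z ≤ (ψ ^ n) z := by
  induction n generalizing z with
  | zero => simp
  | succ n ih =>
    rw [pow_succ, pow_succ, RelIso.mul_apply, RelIso.mul_apply]
    exact (ih _).trans ((ψ ^ n).monotone (h z))

lemma le_pow' {W : J ≃o J} (h : ∀ z, z ≤ W z) (n : ℕ) (z : J) : z ≤ (W ^ n) z := by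
  induction n with
  | zero => simp
  | succ n ih =>
    rw [pow_succ', RelIso.mul_apply]
    exact ih.trans (h _)

lemma pow_mono' {W : J ≃o J} (h : ∀ z, z ≤ W z) {m n : ℕ} (hmn : m ≤ n) (z : J) :
    (W ^ m) z ≤ (W ^ n) z := by
  obtain ⟨i, rfl⟩ := Nat.exists_eq_add_of_le hmn
  rw [add_comm, pow_add, RelIso.mul_apply]
  exact le_pow' h i _

lemma pow_lt' {W : J ≃o J} (h : ∀ z, z < W z) {m n : ℕ} (hmn : m < n) (z : J) :
    (W ^ m) z < (W ^ n) z := by
  have h1 : (W ^ m) z < (W ^ (m + 1)) z := by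
    rw [pow_succ', RelIso.mul_apply]
    exact h _
  exact h1.trans_le (pow_mono' (fun z => (h z).le) hmn z)

/-- The sum of the lengths of the edges from `i` on. -/
def rest (ℓ : ℕ → ℕ) (n i : ℕ) : ℕ := ∑ t ∈ Finset.Ico i n, ℓ t

lemma rest_self (ℓ : ℕ → ℕ) (n : ℕ) : rest ℓ n n = 0 := by simp [rest]

lemma rest_succ (ℓ : ℕ → ℕ) {n i : ℕ} (h : i < n) : rest ℓ n i = ℓ i + rest ℓ n (i + 1) := by
  rw [rest, rest, Finset.sum_eq_sum_Ico_succ_bot h]

/-- The data of the climb: `W` is the unit, `h i` is the height of the vertex `i`, `φ i` is the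
flow of the edge from the vertex `i` to the vertex `i + 1`, `C` is the height of the hub. -/
structure Climb (a C W : J ≃o J) (S n : ℕ) (ℓ : ℕ → ℕ) (h φ : ℕ → J ≃o J) : Prop where
  lt : ∀ z, z < W z
  le_a : ∀ z, (W ^ S) z ≤ a z
  hub : ∀ M z, C z < (W ^ M) z → ∃ w, a w < (W ^ (M + 1)) w
  bot : ∀ z, h n z ≤ z
  step : ∀ i < n, ∀ z, h i z ≤ h (i + 1) ((φ i ^ ℓ i) z)
  pos : ∀ i < n, 0 < ℓ i
  rule : ∀ i < n, (∀ z, h (i + 1) z ≤ C z) → ∀ z, φ i z ≤ W z

namespace Climb

variable {a C W : J ≃o J} {S n : ℕ} {ℓ : ℕ → ℕ} {h φ : ℕ → J ≃o J} (K : Climb a C W S n ℓ h φ)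
include K

/-- A low vertex is below the hub. -/
lemma below {M i : ℕ} (hM : M + 1 ≤ S) (hi : ∀ z, h i z ≤ (W ^ M) z) (z : J) : h i z ≤ C z := by
  by_contra hn
  push Not at hn
  obtain ⟨w, hw⟩ := K.hub M z (hn.trans_le (hi z))
  exact absurd (hw.trans_le (pow_mono' (fun z => (K.lt z).le) hM w)) (not_lt.mpr (K.le_a w))

/-- The heights. -/
lemma height : ∀ o i, i + o = n → (i < n → rest ℓ n (i + 1) + 1 ≤ S) →
    ∀ z, h i z ≤ (W ^ rest ℓ n i) z := by
  intro o
  induction o with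
  | zero =>
    intro i hi _ z
    obtain rfl : i = n := by omega
    rw [rest_self, pow_zero]
    exact K.bot z
  | succ o ih =>
    intro i hi hS z
    have hin : i < n := by omega
    have h1 := ih (i + 1) (by omega) (fun h2 => by
      have h3 := rest_succ ℓ h2
      have h4 := hS hin
      omega)
    have h2 := K.rule i hin (K.below (hS hin) h1)
    rw [rest_succ ℓ hin, add_comm, pow_add, RelIso.mul_apply]
    exact (K.step i hin z).trans (((h (i + 1)).monotone (pow_le_pow' h2 _ z)).trans (h1 _))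

/-- The height of the first vertex, and the flow of the first edge. -/
lemma first (hn : 0 < n) (hS : rest ℓ n 0 ≤ S + 1) (z : J) :
    h 0 z ≤ (W ^ (rest ℓ n 0 - 1)) (φ 0 z) := by
  have h0 := rest_succ ℓ hn
  have h1 := K.pos 0 hn
  obtain ⟨m, hm⟩ : ∃ m, ℓ 0 = m + 1 := ⟨ℓ 0 - 1, by omega⟩
  have h2 := K.height (n - 1) 1 (by omega) (fun h3 => by
    have h4 := rest_succ ℓ h3
    have h5 := K.pos 1 h3
    rw [zero_add] at h0
    omega)
  have h3 : ∀ z, (φ 0 ^ m) z ≤ (W ^ m) z := by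
    intro z
    rcases Nat.eq_zero_or_pos m with rfl | h4
    · simp
    · refine pow_le_pow' (K.rule 0 hn (K.below (M := rest ℓ n 1) ?_ h2)) m z
      rw [zero_add] at h0
      omega
  have h4 := K.step 0 hn z
  rw [hm, pow_succ, RelIso.mul_apply, zero_add] at h4
  refine h4.trans (((h 1).monotone (h3 _)).trans ((h2 _).trans (le_of_eq ?_)))
  rw [← RelIso.mul_apply, ← pow_add]
  congr 2
  rw [zero_add] at h0
  omega

end Climb

end Pool.Agent.Helper42.T5
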