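import Pool.Agent.Helper42.T5.Hub

/-!
A vertex which is joined by several edges with the start of the negative edge and by an edge with
its end: the theorem for systems of labels.
-/

set_option autoImplicit false

namespace Pool.Agent.Helper42.T5

open Pool.Agent.Helper42.Th Pool.Agent.Helper31.T3 Pool.Agent.Helper31.CUT

variable {E : Type} {Ω : Type*} [LinearOrder Ω] {Γ : CMap E} {δ : E} {X Y : E → Ω ≃o Ω}
  {a b : Ω ≃o Ω} {k : ℕ} {p q : ℕ → E} {A : Set E} {T : Finset ℕ} {μ ℓ : ℕ → ℕ} {n : ℕ} {z₀ : Ω}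

lemma sorted_lt (T : Finset ℕ) : T.sort.Pairwise (· < ·) := by
  refine List.pairwise_iff_getElem.mpr fun i j hi hj hij => ?_
  exact T.sortedLT_sort.getElem_lt_getElem_of_lt hij

lemma sum_sort (T : Finset ℕ) (μ : ℕ → ℕ) : (T.sort.map μ).sum = ∑ k ∈ T, μ k := by
  rw [← List.sum_toFinset μ (T.sort_nodup _), Finset.sort_toFinset]

variable [Finite E] (S : Sys Γ δ X Y a b k) (h0 : z₀ < a z₀)
include S h0

omit [Finite E] in
lemma bJ_le (z : {z // Reg a z₀ z}) : bJ S h0 z ≤ aJ h0 z := S.b_le_a (reg_lt h0 z.2).le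

variable (H : HubW Γ δ X Y p A T μ)
include H

/-- The flows of the edges from the start of `δ` to the hub. -/
lemma Upow_le_pr (z : {z // Reg a z₀ z}) :
    ((hU S h0 p ^ ∑ k ∈ T, μ k) z).1 ≤ pr Γ δ Y T.sort z.1 := by
  have h1 := fan_le S h0 H T.sort (fun i hi => (Finset.mem_sort _).mp hi) z
  rwa [sum_sort] at h1

lemma Upow_le_b (z : {z // Reg a z₀ z}) : (hU S h0 p ^ ∑ k ∈ T, μ k) z ≤ bJ S h0 z := by
  refine (Upow_le_pr S h0 H z).trans (list_le S (reg_lt h0 z.2).le ?_ ?_)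
  · rw [List.pairwise_cons]
    exact ⟨fun i hi => H.pos i ((Finset.mem_sort _).mp hi), sorted_lt T⟩
  · exact fun i hi => H.ne i ((Finset.mem_sort _).mp hi)

variable (Q : ArmW Γ δ X Y (p 1) n q ℓ)
include Q

omit H in
lemma arm_step {i : ℕ} (hi : i < n) (z : {z // Reg a z₀ z}) :
    hgt S h0 (vx δ Γ n q i) z ≤ hgt S h0 (vx δ Γ n q (i + 1)) ((flo S h0 (q i) ^ ℓ i) z) := by
  rw [hgt_le, vx_lt hi]
  refine (slope_step S h0 (Q.slope i hi).2 z).trans (le_of_eq ?_)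
  exact Q.f_next (f := fun d => X d ((flo S h0 (q i) ^ ℓ i) z).1) (S.harm _).f_rot hi

omit H Q in
lemma arm_bot (z : {z // Reg a z₀ z}) : hgt S h0 (vx δ Γ n q n) z ≤ z := by
  apply le_of_eq
  apply Subtype.ext
  apply (X (Γ.flip δ)).injective
  rw [hgt_eq, vx_end]

/-- The climb behind the path. -/
lemma climb_out (hA : ∀ i < n, q i ∉ A) :
    Climb (aJ h0) (hC S h0 p) (hU S h0 p) (∑ k ∈ T, μ k) n ℓ (fun i => hgt S h0 (vx δ Γ n q i))
      (fun i => flo S h0 (q i)) where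
  lt := U_gt S h0 H
  le_a z := (Upow_le_b S h0 H z).trans (bJ_le S h0 z)
  hub M z hz := by
    obtain ⟨w, rfl⟩ := (hU S h0 p).surjective z
    refine ⟨w, ?_⟩
    rwa [C_U, ← RelIso.mul_apply, ← pow_succ] at hz
  bot := arm_bot S h0
  step i hi := arm_step S h0 Q hi
  pos i hi := (Q.slope i hi).1
  rule i hi h s := by
    obtain ⟨h1, h2, h3⟩ := Q.ne i hi
    have h4 := flow_out S h0 H h1 h2 h3 (Q.hub i hi) (hA i hi) s (by
      have h5 := (hgt_le S h0 _ _ _ _).mp (h (flo S h0 (q i) s))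
      rw [← Q.f_next (f := fun d => X d (flo S h0 (q i) s).1) (S.harm _).f_rot hi] at h5
      exact h5)
    have h5 := ((C_le S h0 H _).trans h4).trans (bJ_le S h0 s)
    rw [← C_U S h0 (p := p) s] at h5
    exact (hC S h0 p).le_iff_le.mp h5

/-- The climb before the path. -/
lemma climb_in (hA : ∀ i < n, q i ∈ A) :
    Climb (aJ h0) (hC S h0 p) (hV S h0 p) (∑ k ∈ T, μ k) n ℓ (fun i => hgt S h0 (vx δ Γ n q i))
      (fun i => flo S h0 (q i)) where
  lt := V_gt S h0 H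
  le_a z := by
    obtain ⟨w, rfl⟩ := (aJ h0).surjective z
    rw [Vpow_a]
    exact (aJ h0).monotone ((Upow_le_b S h0 H w).trans (bJ_le S h0 w))
  hub M z hz := by
    refine ⟨z, ?_⟩
    rw [pow_succ', RelIso.mul_apply, ← V_C S h0 (p := p) z]
    exact (hV S h0 p).strictMono hz
  bot := arm_bot S h0
  step i hi := arm_step S h0 Q hi
  pos i hi := (Q.slope i hi).1
  rule i hi h z := by
    obtain ⟨s, rfl⟩ := (flo S h0 (p 1)).surjective z
    obtain ⟨h1, h2, -⟩ := Q.ne i hi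
    have h4 := flow_in S h0 H h1 h2 (Q.hub i hi) (hA i hi) s (by
      have h5 := (hgt_le S h0 _ _ _ _).mp (h (flo S h0 (p 1) s))
      rw [← Q.f_next (f := fun d => X d (flo S h0 (p 1) s).1) (S.harm _).f_rot hi] at h5
      exact h5)
    refine (h4.trans (bJ_le S h0 s)).trans ?_
    rw [← V_C S h0 (p := p) s]
    exact (hV S h0 p).monotone (C_le S h0 H s)

/-- A walk from the hub. -/
theorem hub_eq (hq : Γ.rot.SameCycle (p 1) (q 0)) (hA : (∀ i < n, q i ∈ A) ∨ ∀ i < n, q i ∉ A)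
    (hN : rest ℓ n 0 + 1 ≤ ∑ k ∈ T, μ k) (z : {z // Reg a z₀ z}) :
    ∑ k ∈ T, μ k ≤ rest ℓ n 0 + 1 ∧ aJ h0 z ≤ bJ S h0 z ∧ b z.1 ≤ pr Γ δ Y T.sort z.1 := by
  have e0 : ∀ z, hgt S h0 (vx δ Γ n q 0) z = hC S h0 p z := by
    intro z
    apply Subtype.ext
    apply (X (Γ.flip δ)).injective
    rw [hgt_eq, vx_lt Q.pos, hC, hgt_eq]
    exact same_eq (f := fun d => X d z.1) (S.harm z.1).f_rot hq
  have h1 := rest_succ ℓ Q.pos
  have key : ∀ w, aJ h0 w ≤ (hU S h0 p ^ (rest ℓ n 0 + 1)) w := by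
    intro w
    rcases hA with hA | hA
    · have K := climb_in S h0 H Q hA
      have h2 := K.height n 0 (by omega) (fun _ => by omega) (aJ h0 w)
      have h3 : hC S h0 p (aJ h0 w) ≤ (hV S h0 p ^ rest ℓ n 0) (aJ h0 w) := by
        rw [← e0]
        exact h2
      have h4 := (hV S h0 p).monotone h3
      have h5 : hV S h0 p ((hV S h0 p ^ rest ℓ n 0) (aJ h0 w)) =
          aJ h0 ((hU S h0 p ^ (rest ℓ n 0 + 1)) w) := by
        rw [← RelIso.mul_apply, ← pow_succ', Vpow_a]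
      rw [V_C, h5] at h4
      exact (aJ h0).le_iff_le.mp h4
    · have K := climb_out S h0 H Q hA
      have h2 := K.height n 0 (by omega) (fun _ => by omega) (hU S h0 p w)
      have h3 : hC S h0 p (hU S h0 p w) ≤ (hU S h0 p ^ rest ℓ n 0) (hU S h0 p w) := by
        rw [← e0]
        exact h2
      rwa [C_U, ← RelIso.mul_apply, ← pow_succ] at h3
  have h2 := ((Upow_le_b S h0 H z).trans (bJ_le S h0 z)).trans (key z)
  have h3 : ∑ k ∈ T, μ k ≤ rest ℓ n 0 + 1 := by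
    by_contra hn
    push Not at hn
    exact absurd h2 (not_le.mpr (pow_lt' (U_gt S h0 H) hn z))
  have h4 : rest ℓ n 0 + 1 = ∑ k ∈ T, μ k := by omega
  have h5 := key z
  rw [h4] at h5
  refine ⟨h3, h5.trans (Upow_le_b S h0 H z), ?_⟩
  refine le_trans ?_ ((show (aJ h0 z).1 ≤ _ from h5).trans (Upow_le_pr S h0 H z))
  exact S.b_le_a (reg_lt h0 z.2).le

/-- A walk from the start of `δ`. -/
theorem start_eq {j : ℕ} (hj : q 0 = (Γ.rot ^ j) δ) (hj0 : 0 < j)
    (hj1 : ∀ m, 0 < m → m ≤ j → (Γ.rot ^ m) δ ≠ δ)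
    (hA : ((∀ i < n, q i ∈ A) ∧ ∀ k ∈ T, j < k) ∨ ((∀ i < n, q i ∉ A) ∧ ∀ k ∈ T, k < j))
    (hN : rest ℓ n 0 ≤ ∑ k ∈ T, μ k + 1) (z : {z // Reg a z₀ z}) :
    ∑ k ∈ T, μ k + 1 ≤ rest ℓ n 0 ∧ aJ h0 z ≤ bJ S h0 z ∧
      ((∀ k ∈ T, j < k) ∧ b z.1 ≤ pr Γ δ Y (j :: T.sort) z.1 ∨
        (∀ k ∈ T, k < j) ∧ b z.1 ≤ pr Γ δ Y (T.sort ++ [j]) z.1) := by
  have e0 : ∀ z, hgt S h0 (vx δ Γ n q 0) z = aJ h0 z := by
    intro z
    apply Subtype.ext
    apply (X (Γ.flip δ)).injective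
    rw [hgt_eq, vx_lt Q.pos, hj, S.X_rot]
    exact (S.ha z.1).symm
  have e1 : ∀ z, (flo S h0 (q 0) z).1 = Sys.N Γ Y ((Γ.rot ^ j) δ) z.1 := by
    intro z
    rw [← hj, ← N_eq S h0 (q 0) z, flo, posIso_apply]
    have h2 := S.first_ge (reg_lt h0 z.2).le hj0 hj1
    rw [← hj, ← N_eq S h0 (q 0) z] at h2
    have h3 : z ≤ ((fac S h0 (Γ.flip (q 0)))⁻¹ * fac S h0 (q 0)) z := h2
    rw [max_eq_right h3]
  have h1 := rest_succ ℓ Q.pos
  have h1' := (Q.slope 0 Q.pos).1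
  obtain ⟨N, hN'⟩ : ∃ N, rest ℓ n 0 = N + 1 := ⟨rest ℓ n 0 - 1, by omega⟩
  have hmem : ∀ i ∈ T.sort, i ∈ T := fun i hi => (Finset.mem_sort _).mp hi
  rcases hA with ⟨hA, hT⟩ | ⟨hA, hT⟩
  · have K := climb_in S h0 H Q hA
    have f : ∀ z, aJ h0 z ≤ (hV S h0 p ^ N) (flo S h0 (q 0) z) := by
      intro z
      have h2 := K.first Q.pos hN z
      rw [hN', Nat.add_sub_cancel] at h2
      rw [← e0]
      exact h2
    have g : flo S h0 (q 0) ((hU S h0 p ^ ∑ k ∈ T, μ k) z) ≤ bJ S h0 z := by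
      change (flo S h0 (q 0) ((hU S h0 p ^ ∑ k ∈ T, μ k) z)).1 ≤ b z.1
      rw [e1]
      refine ((Sys.N Γ Y ((Γ.rot ^ j) δ)).monotone (Upow_le_pr S h0 H z)).trans ?_
      rw [← pr_cons]
      refine list_le S (reg_lt h0 z.2).le ?_ ?_
      · rw [List.pairwise_cons, List.pairwise_cons]
        refine ⟨fun i hi => ?_, fun i hi => hT i (hmem i hi), sorted_lt T⟩
        rcases List.mem_cons.mp hi with rfl | hi
        · exact hj0
        · exact H.pos i (hmem i hi)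
      · intro i hi
        rcases List.mem_cons.mp hi with rfl | hi
        · exact hj1
        · exact H.ne i (hmem i hi)
    have h2 := f ((hU S h0 p ^ ∑ k ∈ T, μ k) z)
    have h3 : aJ h0 ((hU S h0 p ^ ∑ k ∈ T, μ k) z) ≤ aJ h0 ((hU S h0 p ^ N) z) := by
      rw [← Vpow_a S h0 N z]
      exact h2.trans ((hV S h0 p ^ N).monotone (g.trans (bJ_le S h0 z)))
    have h4 := (aJ h0).le_iff_le.mp h3
    have h5 : ∑ k ∈ T, μ k ≤ N := by
      by_contra hn
      push Not at hn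
      exact absurd h4 (not_le.mpr (pow_lt' (U_gt S h0 H) hn z))
    have h6 : ∑ k ∈ T, μ k = N := by omega
    rw [← Vpow_a, h6] at h2
    have h7 := (hV S h0 p ^ N).le_iff_le.mp h2
    refine ⟨by omega, h7.trans (by rw [← h6]; exact g), Or.inl ⟨hT, ?_⟩⟩
    rw [pr_cons]
    refine le_trans ?_ ((Sys.N Γ Y ((Γ.rot ^ j) δ)).monotone (Upow_le_pr S h0 H z))
    rw [← e1, h6]
    refine le_trans ?_ (show (aJ h0 z).1 ≤ _ from h7)
    exact S.b_le_a (reg_lt h0 z.2).le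
  · have K := climb_out S h0 H Q hA
    have f : aJ h0 z ≤ (hU S h0 p ^ N) (flo S h0 (q 0) z) := by
      have h2 := K.first Q.pos hN z
      rw [hN', Nat.add_sub_cancel] at h2
      rw [← e0]
      exact h2
    have g0 := Upow_le_pr S h0 H (flo S h0 (q 0) z)
    have g : (hU S h0 p ^ ∑ k ∈ T, μ k) (flo S h0 (q 0) z) ≤ bJ S h0 z := by
      refine g0.trans ?_
      rw [e1]
      have g1 : pr Γ δ Y (T.sort ++ [j]) z.1 ≤ b z.1 := by
        refine list_le S (reg_lt h0 z.2).le ?_ ?_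
        · rw [List.pairwise_cons, List.pairwise_append]
          refine ⟨fun i hi => ?_, sorted_lt T, List.pairwise_singleton _ _, fun i hi i' hi' => ?_⟩
          · rcases List.mem_append.mp hi with hi | hi
            · exact H.pos i (hmem i hi)
            · rw [List.mem_singleton.mp hi]
              exact hj0
          · rw [List.mem_singleton.mp hi']
            exact hT i (hmem i hi)
        · intro i hi
          rcases List.mem_append.mp hi with hi | hi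
          · exact H.ne i (hmem i hi)
          · rw [List.mem_singleton.mp hi]
            exact hj1
      rw [pr_append, pr_cons] at g1
      exact g1
    have h4 := (g.trans (bJ_le S h0 z)).trans f
    have h5 : ∑ k ∈ T, μ k ≤ N := by
      by_contra hn
      push Not at hn
      exact absurd h4 (not_le.mpr (pow_lt' (U_gt S h0 H) hn _))
    have h6 : ∑ k ∈ T, μ k = N := by omega
    rw [← h6] at f
    refine ⟨by omega, f.trans g, Or.inr ⟨hT, ?_⟩⟩
    rw [pr_append, pr_cons]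
    change b z.1 ≤ pr Γ δ Y T.sort (Sys.N Γ Y ((Γ.rot ^ j) δ) z.1)
    rw [← e1]
    refine le_trans ?_ ((show (aJ h0 z).1 ≤ _ from f).trans g0)
    exact S.b_le_a (reg_lt h0 z.2).le

end Pool.Agent.Helper42.T5
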