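import Mathlib
import Pool.Agent.Helper42.Th.Defs

/-!
A vertex which is joined by several edges with the start of the negative edge and by an edge with
its end, and a walk on one side.
-/

set_option autoImplicit false

namespace Pool.Agent.Helper42.T5

open Pool.Agent.Helper42.Th

variable {E : Type} {G : Type*} [Group G] {Γ : CMap E}

/-- Let `δ` lead from the vertex `u` to the vertex `v`.  The dart `c` leads from `u` to the hub,
and `d` leads from the hub to `v`; these three vertices are different, and the slope of the edge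
of `d` is at least `1`.  The closed curve which consists of the edges of `δ`, `c` and `d` has two
sides; the faces on the first side are those with `A`.  The darts `rot ^ k δ` with `k` in `T`
lead from `u` to the hub.  If an edge the slope of which is at least `m` counts `m`, there are at
least `S` such edges. -/
structure Hub (L : Lab G Γ) (δ c d : E) (A : E → Prop) (T : Finset ℕ) (S : ℕ) : Prop where
  first : Γ.rot.SameCycle δ c
  second : Γ.rot.SameCycle (Γ.flip c) d
  stop : Γ.rot.SameCycle (Γ.flip d) (Γ.flip δ)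
  ends : ¬ Γ.rot.SameCycle δ (Γ.flip δ)
  hub : ¬ Γ.rot.SameCycle δ d
  hub' : ¬ Γ.rot.SameCycle (Γ.flip δ) d
  slope : L.Within d 1
  face : ∀ e, A (Γ.flip (Γ.rot e)) ↔ A e
  side : A δ ∧ ¬ A (Γ.flip δ)
  change : ∀ e, e ≠ δ → e ≠ Γ.flip δ →
    ((A e ↔ A (Γ.flip e)) ↔ e ≠ c ∧ Γ.flip e ≠ c ∧ e ≠ d ∧ Γ.flip e ≠ d)
  pos : ∀ k ∈ T, 0 < k ∧ ∀ l, 0 < l → l ≤ k → (Γ.rot ^ l) δ ≠ δ
  fan : ∀ k ∈ T, Γ.rot.SameCycle d (Γ.flip ((Γ.rot ^ k) δ))
  steep : ∃ m : ℕ → ℕ, (∀ k ∈ T, ∃ R,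
    Fill false (m k) (L.M ((Γ.rot ^ k) δ)) (L.D ((Γ.rot ^ k) δ)) R) ∧ S ≤ ∑ k ∈ T, m k

/-- The darts `q 0`, ..., `q (n - 1)` form a walk to the vertex where `δ` ends, which does not use
the edge of `δ` and the dart `d`, and none of these darts leads to the vertex where `d` starts.
An edge the slope of which is at least `1 / ℓ` counts `ℓ`, and the walk has length at most `N`. -/
structure Arm (L : Lab G Γ) (δ d : E) (N n : ℕ) (q : ℕ → E) : Prop where
  pos : 0 < n
  next : ∀ i, i + 1 < n → Γ.rot.SameCycle (Γ.flip (q i)) (q (i + 1))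
  stop : Γ.rot.SameCycle (Γ.flip (q (n - 1))) (Γ.flip δ)
  ne : ∀ i < n, q i ≠ δ ∧ q i ≠ Γ.flip δ ∧ q i ≠ d
  hub : ∀ i < n, ¬ Γ.rot.SameCycle (Γ.flip (q i)) d
  length : ∃ ℓ : ℕ → ℕ, (∀ i < n, 0 < ℓ i ∧ L.Within (q i) (ℓ i)) ∧
    ∑ i ∈ Finset.range n, ℓ i ≤ N

/-- There is a hub, and a walk from the hub (`hub`) or from the start of `δ` (`start`) to the end
of `δ`, on one side of the path through the hub, such that the walk is short in comparison with
the number of the edges from the start of `δ` to the hub. -/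
inductive Near (L : Lab G Γ) (δ : E) (s : Bool) : Prop
  | hub (c d : E) (A : E → Prop) (T : Finset ℕ) (S N n : ℕ) (q : ℕ → E)
      (h : Hub L δ c d A T S) (hq : Arm L δ d N n q) (h0 : Γ.rot.SameCycle d (q 0))
      (hA : (∀ i < n, A (q i)) ∨ ∀ i < n, ¬ A (q i))
      (hN : N + 1 < S ∨ N + 1 = S ∧ (s = true ∨ Γ.Third δ T))
  | start (c d : E) (A : E → Prop) (T : Finset ℕ) (S N n : ℕ) (q : ℕ → E) (j : ℕ)
      (h : Hub L δ c d A T S) (hq : Arm L δ d N n q) (h0 : q 0 = (Γ.rot ^ j) δ) (hj : 0 < j)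
      (hj' : ∀ l, 0 < l → l ≤ j → (Γ.rot ^ l) δ ≠ δ)
      (hA : (∀ i < n, A (q i)) ∧ (∀ k ∈ T, j < k) ∨ (∀ i < n, ¬ A (q i)) ∧ ∀ k ∈ T, k < j)
      (hN : N ≤ S ∨ N = S + 1 ∧ (s = true ∨ Γ.Third δ (insert j T)))

end Pool.Agent.Helper42.T5
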