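import Pool.Agent.Helper24.T8.Gen

/-!
Several edges at the start of the negative edge of a labelled graph: the product of their flows,
in the order of rotation, is at most the flow of the negative edge.
-/

set_option autoImplicit false

namespace Pool.Agent.Helper42.T5

open Pool.Agent.Helper42.Th Pool.Agent.Helper31.T3

variable {E : Type} {Ω : Type*} [LinearOrder Ω] {Γ : CMap E} {δ : E} {X Y : E → Ω ≃o Ω}
  {a b : Ω ≃o Ω} {k : ℕ} {z₀ : Ω}

/-- The product of the flows of the darts at the positions `l`. -/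
def pr (Γ : CMap E) (δ : E) (Y : E → Ω ≃o Ω) (l : List ℕ) : Ω ≃o Ω :=
  (l.map fun i => Sys.N Γ Y ((Γ.rot ^ i) δ)).prod

lemma pr_cons (i : ℕ) (l : List ℕ) (z : Ω) :
    pr Γ δ Y (i :: l) z = Sys.N Γ Y ((Γ.rot ^ i) δ) (pr Γ δ Y l z) := by
  rw [pr, List.map_cons, List.prod_cons, RelIso.mul_apply]
  rfl

lemma pr_append (l m : List ℕ) (z : Ω) :
    pr Γ δ Y (l ++ m) z = pr Γ δ Y l (pr Γ δ Y m z) := by
  rw [pr, List.map_append, List.prod_append, RelIso.mul_apply]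
  rfl

variable [Finite E] (S : Sys Γ δ X Y a b k)
include S

/-- The edges at the start of `δ`. -/
lemma first_list {z : Ω} (hz : z ≤ a z) (l : List ℕ) :
    ∀ o : ℕ, (o :: l).Pairwise (· < ·) →
      (∀ i ∈ l, ∀ m, 0 < m → m ≤ i → (Γ.rot ^ m) δ ≠ δ) →
      z ≤ pr Γ δ Y l z ∧ pr Γ δ Y l z ≤ b z ∧
        Y ((Γ.rot ^ o) δ) (pr Γ δ Y l z) ≤ Y (Γ.flip δ) z := by
  induction l with
  | nil =>
    intro o _ _
    exact ⟨le_rfl, S.b_ge hz, (S.ext hz _).2.2.2⟩
  | cons i l ih =>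
    intro o hl hne
    obtain ⟨h1, h2⟩ := List.pairwise_cons.mp hl
    have hoi : o < i := h1 i (List.mem_cons_self ..)
    obtain ⟨h3, h4, h5⟩ := ih i h2 fun j hj => hne j (List.mem_cons_of_mem _ hj)
    rw [pr_cons]
    set w := pr Γ δ Y l z with hw
    have hi := hne i (List.mem_cons_self ..)
    have r1 : w ≤ a w := S.reg_of hz h3 h4
    have h6 : w ≤ Sys.N Γ Y ((Γ.rot ^ i) δ) w := S.first_ge r1 (by omega) hi
    have h7 : Sys.N Γ Y ((Γ.rot ^ i) δ) w ≤ b z := by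
      rw [Sys.N_le]
      refine h5.trans ?_
      rw [← S.hb z]
      exact (S.ext (S.reg_b hz) _).2.2.1
    refine ⟨h3.trans h6, h7, ?_⟩
    have r2 := S.reg_of hz (h3.trans h6) h7
    obtain ⟨n, rfl⟩ : ∃ n, i = n + 1 := ⟨i - 1, by omega⟩
    refine (S.first_mono r2 (show o ≤ n by omega) fun m h8 h9 => hi m h8 (by omega)).trans ?_
    rw [← S.Y_flip, Sys.Y_N]
    exact h5

/-- The edges at the start of `δ`. -/
lemma list_le {z : Ω} (hz : z ≤ a z) {l : List ℕ} (hl : (0 :: l).Pairwise (· < ·))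
    (hne : ∀ i ∈ l, ∀ m, 0 < m → m ≤ i → (Γ.rot ^ m) δ ≠ δ) : pr Γ δ Y l z ≤ b z :=
  (first_list S hz l 0 hl hne).2.1

omit S [Finite E] in
/-- A new element of an increasing list. -/
lemma insert_list {m : ℕ} : ∀ {l : List ℕ}, l.Pairwise (· < ·) → m ∉ l →
    ∃ l₁ l₂, l = l₁ ++ l₂ ∧ (l₁ ++ m :: l₂).Pairwise (· < ·)
  | [], _, _ => ⟨[], [], rfl, by simp⟩
  | i :: l, hl, hm => by
    obtain ⟨h1, h2⟩ := List.pairwise_cons.mp hl
    rcases lt_trichotomy m i with h | h | h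
    · refine ⟨[], i :: l, rfl, ?_⟩
      rw [List.nil_append, List.pairwise_cons]
      refine ⟨fun j hj => ?_, hl⟩
      rcases List.mem_cons.mp hj with rfl | hj
      · exact h
      · exact h.trans (h1 j hj)
    · exact absurd (h ▸ List.mem_cons_self ..) hm
    · obtain ⟨l₁, l₂, rfl, h3⟩ := insert_list h2 fun h4 => hm (List.mem_cons_of_mem _ h4)
      refine ⟨i :: l₁, l₂, rfl, ?_⟩
      rw [List.cons_append, List.pairwise_cons]
      refine ⟨fun j hj => ?_, h3⟩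
      rcases List.mem_append.mp hj with hj | hj
      · exact h1 j (List.mem_append.mpr (Or.inl hj))
      · rcases List.mem_cons.mp hj with rfl | hj
        · exact h
        · exact h1 j (List.mem_append.mpr (Or.inr hj))

/-- If the product of some flows is the largest possible, a further edge fixes a point. -/
lemma list_extra {z : Ω} (hz : z ≤ a z) {l : List ℕ} (hl : l.Pairwise (· < ·))
    (h0 : ∀ i ∈ l, 0 < i) (hne : ∀ i ∈ l, ∀ m, 0 < m → m ≤ i → (Γ.rot ^ m) δ ≠ δ) {m : ℕ}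
    (hm0 : 0 < m) (hm : m ∉ l) (hm1 : ∀ i, 0 < i → i ≤ m → (Γ.rot ^ i) δ ≠ δ)
    (heq : b z ≤ pr Γ δ Y l z) :
    ∃ w, z ≤ w ∧ w ≤ b z ∧ Sys.N Γ Y ((Γ.rot ^ m) δ) w = w := by
  obtain ⟨l₁, l₂, rfl, h1⟩ := insert_list hl hm
  have h2 : (0 :: (l₁ ++ m :: l₂)).Pairwise (· < ·) := by
    rw [List.pairwise_cons]
    refine ⟨fun j hj => ?_, h1⟩
    rcases List.mem_append.mp hj with hj | hj
    · exact h0 j (List.mem_append.mpr (Or.inl hj))
    · rcases List.mem_cons.mp hj with rfl | hj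
      · exact hm0
      · exact h0 j (List.mem_append.mpr (Or.inr hj))
  have h3 : ∀ i ∈ l₁ ++ m :: l₂, ∀ j, 0 < j → j ≤ i → (Γ.rot ^ j) δ ≠ δ := by
    intro i hi
    rcases List.mem_append.mp hi with hi | hi
    · exact hne i (List.mem_append.mpr (Or.inl hi))
    · rcases List.mem_cons.mp hi with rfl | hi
      · exact hm1
      · exact hne i (List.mem_append.mpr (Or.inr hi))
  have h4 := list_le S hz h2 h3
  have h5 : (0 :: l₂).Pairwise (· < ·) := by
    refine h2.sublist (List.Sublist.cons_cons 0 ?_)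
    exact (List.sublist_cons_self m l₂).trans (List.sublist_append_right l₁ _)
  have h6 : ∀ i ∈ l₂, ∀ j, 0 < j → j ≤ i → (Γ.rot ^ j) δ ≠ δ := fun i hi =>
    hne i (List.mem_append.mpr (Or.inr hi))
  obtain ⟨h7, h8, -⟩ := first_list S hz l₂ 0 h5 h6
  set w := pr Γ δ Y l₂ z with hw
  refine ⟨w, h7, h8, le_antisymm ?_ (S.first_ge (S.reg_of hz h7 h8) hm0 hm1)⟩
  rw [pr_append] at heq h4
  rw [pr_cons] at h4
  exact (pr Γ δ Y l₁).le_iff_le.mp (h4.trans heq)

end Pool.Agent.Helper42.T5
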