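import Pool.Agent.Helper42.T5.Fan
import Pool.Agent.Helper42.T5.Side
import Pool.Agent.Helper42.T5.Climb

/-!
A vertex which is joined by several edges with the start of the negative edge and by an edge with
its end, and a path from the start or from this vertex to the end of the negative edge.
-/

set_option autoImplicit false

namespace Pool.Agent.Helper42.T5

open Pool.Agent.Helper42.Th Pool.Agent.Helper31.T3 Pool.Agent.Helper31.CUT

section

variable {E : Type} {Ω : Type*} [LinearOrder Ω] {Γ : CMap E} {δ : E}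

/-- The slope of the edge is at least `m`. -/
def Steep (Γ : CMap E) (X Y : E → Ω ≃o Ω) (d : E) (m : ℕ) : Prop :=
  ∀ z, X (Γ.flip d) z ≤ X d z → (((X (Γ.flip d))⁻¹ * X d) ^ m) z ≤ Sys.N Γ Y d z

/-- The path `p 0`, `p 1` leads from the start of `δ` to the hub and to the end of `δ`; the edges
at the positions in `T` join the start of `δ` with the hub. -/
structure HubW (Γ : CMap E) (δ : E) (X Y : E → Ω ≃o Ω) (p : ℕ → E) (A : Set E) (T : Finset ℕ)
    (μ : ℕ → ℕ) : Prop where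
  arc : Arc Γ δ 2 p
  side : Side Γ δ 2 p A
  slope : Slope Γ X Y (p 1) 1
  pos : ∀ k ∈ T, 0 < k
  ne : ∀ k ∈ T, ∀ l, 0 < l → l ≤ k → (Γ.rot ^ l) δ ≠ δ
  hub : ∀ k ∈ T, Γ.rot.SameCycle (p 1) (Γ.flip ((Γ.rot ^ k) δ))
  steep : ∀ k ∈ T, Steep Γ X Y ((Γ.rot ^ k) δ) (μ k)

/-- A walk to the end of `δ` which does not come back to the hub. -/
structure ArmW (Γ : CMap E) (δ : E) (X Y : E → Ω ≃o Ω) (w : E) (n : ℕ) (q : ℕ → E)
    (ℓ : ℕ → ℕ) : Prop where
  pos : 0 < n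
  next : ∀ i, i + 1 < n → Γ.rot.SameCycle (Γ.flip (q i)) (q (i + 1))
  stop : Γ.rot.SameCycle (Γ.flip (q (n - 1))) (Γ.flip δ)
  ne : ∀ i < n, q i ≠ δ ∧ q i ≠ Γ.flip δ ∧ q i ≠ w
  hub : ∀ i < n, ¬ Γ.rot.SameCycle (Γ.flip (q i)) w
  slope : ∀ i < n, 0 < ℓ i ∧ Slope Γ X Y (q i) (ℓ i)

variable {X Y : E → Ω ≃o Ω} {a b : Ω ≃o Ω} {k : ℕ} {p q : ℕ → E} {A : Set E} {T : Finset ℕ}
  {μ ℓ : ℕ → ℕ} {n : ℕ} {z₀ : Ω}

lemma ArmW.f_next {Z : Type*} {f : E → Z} (hf : ∀ d, f (Γ.rot d) = f d) {w : E}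
    (Q : ArmW Γ δ X Y w n q ℓ) {i : ℕ} (hi : i < n) :
    f (Γ.flip (q i)) = f (vx δ Γ n q (i + 1)) := by
  by_cases h : i + 1 < n
  · rw [vx_lt h]
    exact (same_eq hf (Q.next i h)).symm
  · obtain rfl : i + 1 = n := by omega
    rw [vx_end]
    exact (same_eq hf Q.stop).symm

variable [Finite E] (S : Sys Γ δ X Y a b k) (h0 : z₀ < a z₀)
include S h0

/-- The height of the hub. -/
def hC (p : ℕ → E) : {z // Reg a z₀ z} ≃o {z // Reg a z₀ z} := hgt S h0 (p 1)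

/-- The element of the edges from the start of `δ` to the hub. -/
def hU (p : ℕ → E) : {z // Reg a z₀ z} ≃o {z // Reg a z₀ z} := (hC S h0 p)⁻¹ * aJ h0

/-- The conjugate element. -/
def hV (p : ℕ → E) : {z // Reg a z₀ z} ≃o {z // Reg a z₀ z} := aJ h0 * (hC S h0 p)⁻¹

lemma C_U (z : {z // Reg a z₀ z}) : hC S h0 p (hU S h0 p z) = aJ h0 z := by
  rw [hU, RelIso.mul_apply, RelIso.apply_inv_self]

lemma V_C (z : {z // Reg a z₀ z}) : hV S h0 p (hC S h0 p z) = aJ h0 z := by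
  rw [hV, RelIso.mul_apply, RelIso.inv_apply_self]

lemma V_a (z : {z // Reg a z₀ z}) : hV S h0 p (aJ h0 z) = aJ h0 (hU S h0 p z) := by
  rw [← C_U S h0 (p := p) z, V_C]

lemma Vpow_a (m : ℕ) (z : {z // Reg a z₀ z}) :
    (hV S h0 p ^ m) (aJ h0 z) = aJ h0 ((hU S h0 p ^ m) z) := by
  induction m generalizing z with
  | zero => simp
  | succ m ih => rw [pow_succ, pow_succ, RelIso.mul_apply, RelIso.mul_apply, V_a, ih]

lemma X_U (z : {z // Reg a z₀ z}) : X (p 1) (hU S h0 p z).1 = X δ z.1 := by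
  rw [← hgt_eq S h0 (p 1)]
  change X (Γ.flip δ) (hC S h0 p (hU S h0 p z)).1 = _
  rw [C_U]
  exact S.ha z.1

section hub

variable (H : HubW Γ δ X Y p A T μ)
include H

lemma C_lt (z : {z // Reg a z₀ z}) : hC S h0 p z < aJ h0 z := by
  have h1 := Pool.Agent.Helper31.T3.below (S.harm z.1)
    (fun d => ⟨(S.ext (reg_lt h0 z.2).le d).1, (S.ext (reg_lt h0 z.2).le d).2.1⟩)
    (ends_lt S h0 z) H.arc 1 1 (by norm_num) Nat.one_pos
  rw [vx_lt (by norm_num), ← hgt_eq S h0 (p 1) z, ← S.ha z.1] at h1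
  exact (X (Γ.flip δ)).lt_iff_lt.mp h1

lemma U_gt (z : {z // Reg a z₀ z}) : z < hU S h0 p z := by
  rw [← (hC S h0 p).lt_iff_lt, C_U]
  exact C_lt S h0 H z

lemma V_gt (z : {z // Reg a z₀ z}) : z < hV S h0 p z := by
  obtain ⟨w, rfl⟩ := (aJ h0).surjective z
  rw [V_a]
  exact (aJ h0).strictMono (U_gt S h0 H w)

/-- The edge from the hub to the end of `δ` descends. -/
lemma hub_dn (z : {z // Reg a z₀ z}) : fac S h0 (Γ.flip (p 1)) z < fac S h0 (p 1) z := by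
  rw [fac_lt]
  refine Y_of_X S (H.arc.ne 1 (by norm_num)) (H.arc.ne_flip (by norm_num)) ?_
  have h1 := Pool.Agent.Helper31.T3.above (S.harm z.1)
    (fun d => ⟨(S.ext (reg_lt h0 z.2).le d).1, (S.ext (reg_lt h0 z.2).le d).2.1⟩)
    (ends_lt S h0 z) H.arc 1 (by norm_num)
  refine lt_of_le_of_lt (le_of_eq ?_) h1
  exact (same_eq (f := fun d => X d z.1) (S.harm z.1).f_rot H.arc.last).symm

/-- The flow of the edge from the hub to the end of `δ`. -/
lemma C_le (z : {z // Reg a z₀ z}) : hC S h0 p z ≤ flo S h0 (p 1) z := by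
  have h1 := slope_step S h0 H.slope z
  rw [pow_one] at h1
  have h2 : ∀ w, X (Γ.flip (p 1)) w = X (Γ.flip δ) w := fun w =>
    (same_eq (f := fun d => X d w) (S.harm w).f_rot H.arc.last).symm
  rw [h2, ← hgt_eq S h0 (p 1) z] at h1
  exact (X (Γ.flip δ)).le_iff_le.mp h1

lemma flo_hub (z : {z // Reg a z₀ z}) :
    fac S h0 (Γ.flip (p 1)) (flo S h0 (p 1) z) = fac S h0 (p 1) z := by
  rw [flo_eq]
  exact max_eq_right (hub_dn S h0 H z).le

omit H in
lemma le_fac (d : E) (z : {z // Reg a z₀ z}) : z ≤ fac S h0 d z := by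
  have := (S.ext (reg_lt h0 z.2).le d).2.2.1
  rw [← fac_eq S h0 d z, (Y δ).le_iff_le] at this
  exact this

omit H in
lemma fac_le_b (d : E) (z : {z // Reg a z₀ z}) : fac S h0 d z ≤ bJ S h0 z := by
  have := (S.ext (reg_lt h0 z.2).le d).2.2.2
  rw [← fac_eq S h0 d z, ← S.hb, (Y δ).le_iff_le] at this
  exact this

omit H in
lemma flo_le_b (d : E) (z : {z // Reg a z₀ z}) : flo S h0 d z ≤ bJ S h0 z := by
  refine (le_fac S h0 (Γ.flip d) _).trans ?_
  rw [flo_eq]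
  exact max_le (fac_le_b S h0 _ z) (fac_le_b S h0 _ z)

/-- An edge before the path, and the edge of the hub. -/
lemma flow_in {e : E} (h1 : e ≠ δ) (h2 : e ≠ Γ.flip δ) (he : ¬ Γ.rot.SameCycle (Γ.flip e) (p 1))
    (hA : e ∈ A) (s : {z // Reg a z₀ z})
    (hl : X (Γ.flip e) (flo S h0 (p 1) s).1 ≤ X (p 1) (flo S h0 (p 1) s).1) :
    flo S h0 e (flo S h0 (p 1) s) ≤ bJ S h0 s := by
  set t := flo S h0 (p 1) s with ht
  by_cases d : fac S h0 (Γ.flip e) t < fac S h0 e t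
  · have d' : X (Γ.flip e) t.1 < X e t.1 := X_of_Y' S h1 h2 ((fac_lt S h0 _ _ _ _).mp d)
    have h3 := side_in (S.harm t.1) (fun d => ⟨(S.ext (reg_lt h0 t.2).le d).1,
      (S.ext (reg_lt h0 t.2).le d).2.1⟩) H.arc H.side he d' hl h1 hA
    have h4 : fac S h0 e t ≤ fac S h0 (Γ.flip (p 1)) t := (fac_le S h0 _ _ _ _).mpr h3
    refine (le_fac S h0 (Γ.flip e) _).trans ?_
    rw [flo_eq, max_eq_right d.le]
    refine h4.trans ?_
    rw [ht, flo_hub S h0 H]
    exact fac_le_b S h0 _ s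
  · have h3 : flo S h0 e t ≤ t := by
      rw [← (fac S h0 (Γ.flip e)).le_iff_le, flo_eq]
      exact max_le le_rfl (not_lt.mp d)
    exact h3.trans (flo_le_b S h0 _ s)

/-- The edge of the hub, and an edge behind the path. -/
lemma flow_out {e : E} (h1 : e ≠ δ) (h2 : e ≠ Γ.flip δ) (h3 : e ≠ p 1)
    (he : ¬ Γ.rot.SameCycle (Γ.flip e) (p 1)) (hA : e ∉ A) (s : {z // Reg a z₀ z})
    (hl : X (Γ.flip e) (flo S h0 e s).1 ≤ X (p 1) (flo S h0 e s).1) :
    flo S h0 (p 1) (flo S h0 e s) ≤ bJ S h0 s := by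
  by_cases d : fac S h0 (Γ.flip e) s < fac S h0 e s
  · set t := flo S h0 e s with ht
    have e1 : fac S h0 (Γ.flip e) t = fac S h0 e s := by
      rw [ht, flo_eq, max_eq_right d.le]
    have e2 : s < t := by
      rw [← (fac S h0 (Γ.flip e)).lt_iff_lt, e1]
      exact d
    have d2 : fac S h0 (Γ.flip e) t < fac S h0 e t := by
      rw [e1]
      exact (fac S h0 e).strictMono e2
    have d' : X (Γ.flip e) t.1 < X e t.1 := X_of_Y' S h1 h2 ((fac_lt S h0 _ _ _ _).mp d2)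
    have h4 := side_out (S.harm t.1) (fun d => ⟨(S.ext (reg_lt h0 t.2).le d).1,
      (S.ext (reg_lt h0 t.2).le d).2.1⟩) H.arc H.side he d' hl h1 h3 hA
    have h5 : fac S h0 (p 1) t ≤ fac S h0 (Γ.flip e) t := (fac_le S h0 _ _ _ _).mpr h4
    refine (le_fac S h0 (Γ.flip (p 1)) _).trans ?_
    rw [flo_hub S h0 H]
    refine h5.trans ?_
    rw [e1]
    exact fac_le_b S h0 _ s
  · have h4 : flo S h0 e s = s := by
      refine le_antisymm ?_ (le_flo S h0 e s)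
      rw [← (fac S h0 (Γ.flip e)).le_iff_le, flo_eq]
      exact max_le le_rfl (not_lt.mp d)
    rw [h4]
    exact flo_le_b S h0 _ s

/-- The power of the element of the edges from the start of `δ` to the hub. -/
lemma Upow_le {i : ℕ} (hi : i ∈ T) (m : ℕ) (z : {z // Reg a z₀ z}) :
    ((hU S h0 p ^ m) z).1 =
      (((X (Γ.flip ((Γ.rot ^ i) δ)))⁻¹ * X ((Γ.rot ^ i) δ)) ^ m) z.1 := by
  induction m generalizing z with
  | zero => rfl
  | succ m ih =>
    rw [pow_succ, pow_succ, RelIso.mul_apply, RelIso.mul_apply, ih]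
    congr 1
    apply (X (Γ.flip ((Γ.rot ^ i) δ))).injective
    rw [RelIso.mul_apply, RelIso.apply_inv_self, S.X_rot]
    rw [same_eq (f := fun d => X d (hU S h0 p z).1) (S.harm _).f_rot (H.hub i hi)]
    exact X_U S h0 z

lemma steep_le {i : ℕ} (hi : i ∈ T) (z : {z // Reg a z₀ z}) :
    ((hU S h0 p ^ μ i) z).1 ≤ Sys.N Γ Y ((Γ.rot ^ i) δ) z.1 := by
  rw [Upow_le S h0 H hi]
  refine H.steep i hi z.1 ?_
  rw [S.X_rot]
  exact (S.ext (reg_lt h0 z.2).le _).2.1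

/-- The flows of the edges from the start of `δ` to the hub. -/
lemma fan_le (l : List ℕ) (hl : ∀ i ∈ l, i ∈ T) (z : {z // Reg a z₀ z}) :
    ((hU S h0 p ^ (l.map μ).sum) z).1 ≤ pr Γ δ Y l z.1 := by
  induction l with
  | nil => simp [pr]
  | cons i l ih =>
    rw [pr_cons, List.map_cons, List.sum_cons, pow_add, RelIso.mul_apply]
    refine (steep_le S h0 H (hl i (List.mem_cons_self ..)) _).trans ?_
    exact (Sys.N Γ Y ((Γ.rot ^ i) δ)).monotone (ih fun j hj => hl j (List.mem_cons_of_mem _ hj))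

end hub

end

end Pool.Agent.Helper42.T5
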