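import Pool.Agent.Helper42.T5.Core
import Pool.Agent.Helper42.T5.Defs
import Pool.Agent.Helper42.T3.Main

/-!
Diagrams with one negative crossing ball and a vertex which is joined by several edges with the
start of the negative edge: the fundamental group is not left-orderable.
-/

set_option autoImplicit false

namespace Pool.Agent.Helper42.T5

open Pool.Agent.Helper42.Th Pool.Agent.Helper31.T3 Pool.Agent.Helper42.T3
open Pool.Agent.Helper31.OrderAct
open Pool.Agent.Helper71.Rot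
open Pool.Agent.Helper71.Tree

section

variable {E : Type} {G : Type*} [Group G] {Γ : CMap E} {L : Lab G Γ} {δ c d : E}
  {A : E → Prop} {T : Finset ℕ} {S' N n : ℕ} {q : ℕ → E} {Ω : Type*} [CompleteLinearOrder Ω]
  {ρ : G →* (Ω ≃o Ω)} {a b : Ω ≃o Ω} {k : ℕ}

/-- The path through the hub. -/
def pth (c d : E) : ℕ → E := fun i => if i = 0 then c else d

lemma steep_of_fill {m : ℕ} {e : E} {R : Set G} (h : Fill false m (L.M e) (L.D e) R) :
    Steep Γ (lx L ρ) (ly L ρ) e m := by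
  intro z hz
  have h1 := spec_of_fill ρ h
  have hc : Commute (L.M e) (L.D e) := comm_MD L e
  have h2 := (h1.bd (by rw [← map_mul, ← map_mul, hc.eq])).lower m rfl
  have h3 : z ≤ ρ (L.D e) z := (up_D (L := L) (ρ := ρ)).mpr hz
  have h4 := (ρ (L.D e) ^ m).monotone (h2.up z h3).1
  rw [← RelIso.mul_apply, ← mul_assoc, zpow_neg, zpow_natCast, mul_inv_cancel, one_mul,
    map_M] at h4
  refine le_trans (le_of_eq ?_) h4
  have h5 : (lx L ρ (Γ.flip e))⁻¹ * lx L ρ e = ρ (L.D e) := by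
    rw [Lab.D, map_mul, map_inv]
    rfl
  rw [h5]

lemma hubW (h : Hub L δ c d A T S') : ∃ μ : ℕ → ℕ, S' ≤ ∑ k ∈ T, μ k ∧
    HubW Γ δ (lx L ρ) (ly L ρ) (pth c d) {e | A e} T μ := by
  obtain ⟨μ, h1, h2⟩ := h.steep
  refine ⟨μ, h2, ?_⟩
  have hp0 : pth c d 0 = c := rfl
  have hp1 : pth c d 1 = d := rfl
  have hc : c ≠ δ := by
    rintro rfl
    exact h.hub' h.second
  have hd : d ≠ δ := by
    rintro rfl
    exact h.hub (Equiv.Perm.SameCycle.refl _ _)
  refine ⟨⟨by norm_num, ?_, h.first, ?_, h.stop, ?_, ?_⟩, ⟨h.face, h.side.1, h.side.2, ?_⟩,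
    slope_of_within ρ h.slope, fun k hk => (h.pos k hk).1, fun k hk => (h.pos k hk).2, h.fan,
    fun k hk => ?_⟩
  · intro i hi
    rcases Nat.eq_zero_or_pos i with rfl | h0
    · exact hc
    · obtain rfl : i = 1 := by omega
      exact hd
  · intro i hi
    obtain rfl : i = 0 := by omega
    exact h.second
  · intro i j hij hj h3
    obtain rfl : i = 0 := by omega
    obtain rfl : j = 1 := by omega
    exact h.hub (h.first.trans h3)
  · intro i hi h3
    rcases Nat.eq_zero_or_pos i with rfl | h0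
    · exact h.ends (h.first.trans h3.symm)
    · obtain rfl : i = 1 := by omega
      exact h.hub' h3
  · intro e h3 h4
    refine (h.change e h3 h4).trans ?_
    constructor
    · rintro ⟨e1, e2, e3, e4⟩ i hi
      rcases Nat.eq_zero_or_pos i with rfl | h0
      · exact ⟨e1.symm, e2.symm⟩
      · obtain rfl : i = 1 := by omega
        exact ⟨e3.symm, e4.symm⟩
    · intro h5
      have h6 := h5 0 (by norm_num)
      have h7 := h5 1 (by norm_num)
      exact ⟨h6.1.symm, h6.2.symm, h7.1.symm, h7.2.symm⟩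
  · obtain ⟨R, hR⟩ := h1 k hk
    exact steep_of_fill hR

lemma armW (h : Arm L δ d N n q) : ∃ ℓ : ℕ → ℕ, rest ℓ n 0 ≤ N ∧
    ArmW Γ δ (lx L ρ) (ly L ρ) (pth c d 1) n q ℓ := by
  obtain ⟨ℓ, h1, h2⟩ := h.length
  refine ⟨ℓ, ?_, h.pos, h.next, h.stop, h.ne, h.hub, fun i hi =>
    ⟨(h1 i hi).1, slope_of_within ρ (h1 i hi).2⟩⟩
  rw [rest, ← Finset.range_eq_Ico]
  exact h2

variable [Finite E]

/-- The element of the negative edge does not move up. -/
theorem fix5 {s : Bool} (S : Sys Γ δ (lx L ρ) (ly L ρ) a b k)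
    (hs : s = true → ∀ z, z ≤ a z → a z = b z → a z = z) (h : Near L δ s) {z : Ω}
    (hz : z ≤ a z) : a z = z := by
  by_contra hne
  have h0 : z < a z := lt_of_le_of_ne hz (Ne.symm hne)
  have fin : a z ≤ b z → (s = true ∨ ∃ m w, (∀ l, 0 < l → l ≤ m → (Γ.rot ^ l) δ ≠ δ) ∧ 0 < m ∧
      Γ.Away δ (Γ.flip ((Γ.rot ^ m) δ)) (Γ.flip δ) ∧ z ≤ w ∧ w ≤ b z ∧
      Sys.N Γ (ly L ρ) ((Γ.rot ^ m) δ) w = w) → False := by
    rintro h1 (h2 | ⟨m, w, h3, h4, h5, h6, h7, h8⟩)
    · exact hne (hs h2 z hz (le_antisymm h1 (S.b_le_a hz)))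
    · exact hne (third_fix L ρ S (h3 m h4 le_rfl) h5 hz h6 h7 h8)
  cases h with
  | hub c d A T S' N n q h hq hq0 hA hN =>
    obtain ⟨μ, h1, H⟩ := hubW (ρ := ρ) h
    obtain ⟨ℓ, h2, Q⟩ := armW (ρ := ρ) (c := c) hq
    obtain ⟨h3, h4, h5⟩ := hub_eq S h0 H Q hq0 hA (by omega) ⟨z, reg_self a z⟩
    rcases hN with hN | ⟨hN, hN'⟩
    · omega
    · refine fin h4 (hN'.imp_right fun ht => ?_)
      obtain ⟨m, hm, hmT, hm1, haw⟩ := ht
      obtain ⟨w, hw1, hw2, hw3⟩ := list_extra S hz (sorted_lt T)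
        (fun i hi => H.pos i ((Finset.mem_sort _).mp hi))
        (fun i hi => H.ne i ((Finset.mem_sort _).mp hi)) hm
        (fun hi => hmT ((Finset.mem_sort _).mp hi)) hm1 h5
      exact ⟨m, w, hm1, hm, haw, hw1, hw2, hw3⟩
  | start c d A T S' N n q j h hq hq0 hj hj' hA hN =>
    obtain ⟨μ, h1, H⟩ := hubW (ρ := ρ) h
    obtain ⟨ℓ, h2, Q⟩ := armW (ρ := ρ) (c := c) hq
    obtain ⟨h3, h4, h5⟩ := start_eq S h0 H Q hq0 hj hj' hA (by omega) ⟨z, reg_self a z⟩
    rcases hN with hN | ⟨hN, hN'⟩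
    · omega
    · refine fin h4 (hN'.imp_right fun ht => ?_)
      obtain ⟨m, hm, hmT, hm1, haw⟩ := ht
      have hmj : m ≠ j := fun e => hmT (Or.inl e)
      have hmT' : m ∉ T := fun e => hmT (Or.inr e)
      have hmem : ∀ i ∈ T.sort, i ∈ T := fun i hi => (Finset.mem_sort _).mp hi
      have key : ∀ l : List ℕ, l.Pairwise (· < ·) → (∀ i ∈ l, i = j ∨ i ∈ T) →
          b z ≤ pr Γ δ (ly L ρ) l z → ∃ m w, (∀ l, 0 < l → l ≤ m → (Γ.rot ^ l) δ ≠ δ) ∧
            0 < m ∧ Γ.Away δ (Γ.flip ((Γ.rot ^ m) δ)) (Γ.flip δ) ∧ z ≤ w ∧ w ≤ b z ∧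
            Sys.N Γ (ly L ρ) ((Γ.rot ^ m) δ) w = w := by
        intro l hl hl' hb
        obtain ⟨w, hw1, hw2, hw3⟩ := list_extra S hz hl
          (fun i hi => (hl' i hi).elim (fun e => e ▸ hj) fun e => H.pos i e)
          (fun i hi => (hl' i hi).elim (fun e => e ▸ hj') fun e => H.ne i e) hm
          (fun hi => (hl' m hi).elim hmj hmT') hm1 hb
        exact ⟨m, w, hm1, hm, haw, hw1, hw2, hw3⟩
      rcases h5 with ⟨h6, h7⟩ | ⟨h6, h7⟩
      · refine key _ ?_ ?_ h7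
        · rw [List.pairwise_cons]
          exact ⟨fun i hi => h6 i (hmem i hi), sorted_lt T⟩
        · intro i hi
          exact (List.mem_cons.mp hi).imp_right (hmem i)
      · refine key _ ?_ ?_ h7
        · rw [List.pairwise_append]
          refine ⟨sorted_lt T, List.pairwise_singleton _ _, fun i hi i' hi' => ?_⟩
          rw [List.mem_singleton.mp hi']
          exact h6 i (hmem i hi)
        · intro i hi
          rcases List.mem_append.mp hi with hi | hi
          · exact Or.inr (hmem i hi)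
          · exact Or.inl (List.mem_singleton.mp hi)

end

universe u

/-- The main theorem. -/
theorem main {E : Type} [Finite E] {G : Type u} [Group G] (Γ : CMap E) (L : Lab G Γ) (δ : E)
    (P : Set E) (F : E → Set G) (F₀ : Set G) (s : Bool)
    (hP : ∀ d, d ≠ δ → d ≠ Γ.flip δ → d ∈ P ∨ Γ.flip d ∈ P)
    (hpos : ∀ d ∈ P, Fill true 0 (L.M d) (L.D d) (F d))
    (hneg : Fill s 1 (L.D δ) (L.M δ)⁻¹ F₀) (h : Near L δ s)
    (hgen : Subgroup.closure ((L.elts ∪ ⋃ d ∈ P, F d) ∪ F₀) = ⊤) :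
    ¬ (Nontrivial G ∧ ∃ _ : LinearOrder G, ∀ f g h : G, g ≤ h → f * g ≤ f * h) := by
  refine not_leftOrderable L δ P F F₀ 1 s hP hpos Nat.one_pos hneg ?_ hgen
  intro Ω _ ρ z hz
  have S := sys L δ P F F₀ 1 s ρ hP hpos Nat.one_pos hneg
  have hc : Commute (L.M δ) (L.D δ) := comm_MD L δ
  refine fix5 S ?_ h hz
  intro hs z _ he
  have h1 := (spec_of_fill ρ hneg).str (by
    rw [← map_mul, ← map_mul]
    congr 1
    exact hc.symm.inv_right.eq) hs 1 rfl z (by
      rw [RelIso.mul_apply, he, ← RelIso.mul_apply]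
      simp)
  rw [he]
  exact h1

end Pool.Agent.Helper42.T5
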